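import Pool.Graph.R_pool_sql_team_seeded_3997aac3.Q198.CI.T3c

/-! # The uniform asymptotic law above a power of the logarithm for orders `c log n / log log n` -/

set_option autoImplicit false

namespace Pool.Agent.H453.PO

open Finset MeasureTheory Filter Topology
open Q198.CI

lemma core {c A D γ y t : ℝ} {m : ℕ} (hγ : 0 < γ)
    (hB : c / 2 * (A - 2) = 1 + 2 * γ) (hD1 : 1 ≤ D) (hy : 1 < y) (hly : 0 < Real.log y)
    (g3 : c * Real.log D / γ ≤ Real.log y) (g4 : (A - 2) * Real.log y ≤ γ / 2 * y) (g7 : D ≤ y ^ (A - 2))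
    (ht : t = c / 2 * (y / Real.log y)) (hmge : t - 1 ≤ m) :
    (D * y ^ (2 - A)) ^ m ≤ Real.exp (-((1 + γ) * y)) := by
  have hy0 : 0 < y := by linarith
  have hlD : 0 ≤ Real.log D := Real.log_nonneg hD1
  have hDy : D * y ^ (2 - A) ≤ 1 := by
    have h5 : y ^ (2 - A) = (y ^ (A - 2))⁻¹ := by
      rw [← Real.rpow_neg hy0.le]
      congr 1
      ring
    rw [h5, ← div_eq_mul_inv]
    exact (div_le_one (by positivity)).2 g7
  have hDy0 : 0 < D * y ^ (2 - A) := by positivity
  calc (D * y ^ (2 - A)) ^ m = (D * y ^ (2 - A)) ^ (m : ℝ) := (Real.rpow_natCast _ _).symm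
    _ ≤ (D * y ^ (2 - A)) ^ (t - 1) :=
        Real.rpow_le_rpow_of_exponent_ge hDy0 hDy hmge
    _ = Real.exp (Real.log (D * y ^ (2 - A)) * (t - 1)) := by
        rw [Real.rpow_def_of_pos hDy0]
    _ ≤ Real.exp (-((1 + γ) * y)) := by
        apply Real.exp_le_exp.2
        have h5 : Real.log (D * y ^ (2 - A)) = Real.log D - (A - 2) * Real.log y := by
          rw [Real.log_mul (by positivity) (by positivity), Real.log_rpow hy0]
          ring
        rw [h5]
        have h6 : (Real.log D - (A - 2) * Real.log y) * (t - 1) =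
            (c / 2 * Real.log D / Real.log y) * y - (c / 2 * (A - 2)) * y - Real.log D +
              (A - 2) * Real.log y := by
          rw [ht]
          field_simp
          ring
        rw [h6]
        have h7 : c / 2 * Real.log D / Real.log y ≤ γ / 2 := by
          rw [div_le_iff₀ hly]
          rw [div_le_iff₀ hγ] at g3
          nlinarith
        have h9 := mul_le_mul_of_nonneg_right h7 hy0.le
        rw [hB]
        nlinarith

/-- the length of the grid -/
noncomputable def gp (A δ : ℝ) (i : ℕ) : ℕ := ⌊δ * ((i : ℝ) * Real.log 2) ^ A⌋₊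

lemma scale {c A : ℝ} (hc : 0 < c) (hA : 2 + 2 / c < A) {Ω : Type*} [MeasurableSpace Ω]
    {P : Measure Ω} [IsProbabilityMeasure P] {κ : ℕ → ℕ} {E : ℕ → Set Ω} (hM : Model P κ E)
    (hκ : ∀ᶠ n : ℕ in atTop, c * (Real.log n / Real.log (Real.log n)) ≤ κ n)
    {δ : ℝ} (hδ : 0 < δ) (hδ1 : δ ≤ 1 / 4) :
    ∀ᵐ ω ∂P, ∀ᶠ i : ℕ in atTop, ω ∈ good E (gp A δ i) δ i := by
  have hc2 : 0 < 2 / c := by positivity
  have hA2 : 0 < A - 2 := by linarith
  have hl2 : 1 / 2 ≤ Real.log 2 := by
    have := Real.log_two_gt_d9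
    linarith
  have hl2' : Real.log 2 ≤ 1 := by
    have := Real.log_two_lt_d9
    linarith
  have hB1 : 1 < c / 2 * (A - 2) := by
    have h1 : 2 / c < A - 2 := by linarith
    have h2 : c / 2 * (2 / c) < c / 2 * (A - 2) := mul_lt_mul_of_pos_left h1 (by positivity)
    have h3 : c / 2 * (2 / c) = 1 := by field_simp
    rw [h3] at h2
    exact h2
  set γ : ℝ := (c / 2 * (A - 2) - 1) / 2 with hγ
  have hγ0 : 0 < γ := by
    rw [hγ]
    linarith
  have hB : c / 2 * (A - 2) = 1 + 2 * γ := by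
    rw [hγ]
    ring
  set D : ℝ := max (4 * c * Real.exp 2 / δ ^ 3) 1 with hD
  have hD1 : 1 ≤ D := le_max_right _ _
  have hD2 : 4 * c * Real.exp 2 / δ ^ 3 ≤ D := le_max_left _ _
  have hyev : ∀ᶠ y : ℝ in atTop, 16 ≤ y ∧ 1 ≤ Real.log y ∧ c * Real.log D / γ ≤ Real.log y ∧
      (A - 2) * Real.log y ≤ γ / 2 * y ∧ Real.log y ≤ c / 4 * y ∧ 8 * c / δ ≤ y ^ (A - 2) ∧
      D ≤ y ^ (A - 2) ∧ 2 / δ ≤ y ^ (A - 2) := by
    have h1 := Real.tendsto_log_atTop
    have h2 := tendsto_rpow_atTop hA2
    filter_upwards [eventually_ge_atTop 16, h1.eventually_ge_atTop 1,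
      h1.eventually_ge_atTop (c * Real.log D / γ), ev_log (show 0 < γ / (2 * (A - 2)) by positivity),
      ev_log (show 0 < c / 4 by positivity), h2.eventually_ge_atTop (8 * c / δ),
      h2.eventually_ge_atTop D, h2.eventually_ge_atTop (2 / δ)] with y g1 g2 g3 g4 g5 g6 g7 g8
    refine ⟨g1, g2, g3, ?_, g5, g6, g7, g8⟩
    have := mul_le_mul_of_nonneg_left g4 hA2.le
    refine this.trans (le_of_eq ?_)
    field_simp
  have hyt : Tendsto (fun i : ℕ => ((i : ℝ) - 1) * Real.log 2) atTop atTop := by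
    apply Tendsto.atTop_mul_const (by linarith)
    exact tendsto_atTop_add_const_right _ (-1) tendsto_natCast_atTop_atTop
  obtain ⟨n₀, hn₀⟩ := eventually_atTop.1 hκ
  have hev : ∀ᶠ i : ℕ in atTop, P (good E (gp A δ i) δ i)ᶜ ≤
      ENNReal.ofReal (32 * (Real.exp (-(γ * Real.log 2)) ^ (i - 1))) := by
    filter_upwards [hyt.eventually hyev, eventually_ge_atTop (n₀ + 5)] with i h1 h2
    obtain ⟨g1, g2, g3, g4, g5, g6, g7, g8⟩ := h1
    set y : ℝ := ((i : ℝ) - 1) * Real.log 2 with hy
    have hy0 : 0 < y := by linarith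
    have hly : 0 < Real.log y := by linarith
    have hi5 : (5:ℝ) ≤ i := by exact_mod_cast (by omega : 5 ≤ i)
    set F : ℝ := ((i : ℝ) * Real.log 2) ^ A with hF
    have hyF : y ^ A ≤ F := by
      apply Real.rpow_le_rpow hy0.le _ (by linarith)
      rw [hy]
      nlinarith
    have hyA : y ^ A = y ^ (A - 2) * y ^ 2 := by
      rw [← Real.rpow_natCast, ← Real.rpow_add hy0]
      congr 1
      push_cast
      ring
    have hyA2 : 2 / δ ≤ y ^ A := by
      rw [hyA]
      have h0 : 0 < 2 / δ := by positivity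
      have h1 : 1 ≤ y ^ 2 := one_le_pow₀ (by linarith)
      have h2 := mul_le_mul g8 h1 zero_le_one (by positivity)
      linarith
    have hyAδ : 2 ≤ δ * y ^ A := by
      rw [div_le_iff₀ hδ] at hyA2
      linarith
    set g : ℕ := gp A δ i with hg
    have h7 : 2 ≤ δ * F := hyAδ.trans (mul_le_mul_of_nonneg_left hyF hδ.le)
    have hgF : δ * y ^ A / 2 ≤ g := by
      have := Nat.lt_floor_add_one (δ * F)
      have h8 : (⌊δ * F⌋₊ : ℝ) = (g : ℝ) := rfl
      rw [h8] at this
      have h9 := mul_le_mul_of_nonneg_left hyF hδ.le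
      linarith
    have hg1 : (1:ℝ) ≤ g := by linarith
    have hg0 : 0 < g := by
      have : (0:ℝ) < g := by linarith
      exact_mod_cast this
    have hg' : (0:ℝ) < g := by exact_mod_cast hg0
    set t : ℝ := c / 2 * (y / Real.log y) with ht
    have ht2 : 2 ≤ t := by
      rw [ht, mul_div_assoc', le_div_iff₀ hly]
      linarith
    set m : ℕ := ⌊t⌋₊ with hm
    have hmle : (m : ℝ) ≤ t := Nat.floor_le (by linarith)
    have hmge : t - 1 ≤ m := by
      have := Nat.lt_floor_add_one t
      rw [← hm] at this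
      linarith
    have hm0 : 0 < m := by
      have : (0:ℝ) < m := by linarith
      exact_mod_cast this
    have hm' : (0:ℝ) < m := by exact_mod_cast hm0
    have hyl : y / Real.log y ≤ y := div_le_self hy0.le g2
    have htc : 2 * t = c * (y / Real.log y) := by
      rw [ht]
      ring
    have h2m : 2 * (m:ℝ) ≤ c * y := by
      have := mul_le_mul_of_nonneg_left hyl hc.le
      linarith
    have h9 : ((i:ℝ) + 3) * Real.log 2 ≤ 2 * y := by
      rw [hy]
      nlinarith
    have h90 : 0 < ((i:ℝ) + 3) * Real.log 2 := by nlinarith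
    refine (good_prob hM hm0 (by omega) hg0 (fun n hn => ?_) ?_ hδ (by linarith)).trans ?_
    · have h5 : i - 1 < 2 ^ (i - 1) := Nat.lt_two_pow_self
      have h6 := hn₀ n (by omega)
      have hn0 : (0:ℝ) < n := by exact_mod_cast (by omega : 0 < n)
      have h8 : y ≤ Real.log n := by
        have h10 : Real.log ((2:ℝ) ^ (i - 1)) ≤ Real.log n := by
          apply Real.log_le_log (by positivity)
          exact_mod_cast hn
        rw [Real.log_pow, Nat.cast_sub (by omega : 1 ≤ i)] at h10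
        push_cast at h10
        exact h10
      have he : Real.exp 1 ≤ y := by
        have := Real.exp_one_lt_d9
        linarith
      have h11 : Real.log (Real.log n) / Real.log n ≤ Real.log y / y :=
        Real.log_div_self_antitoneOn he (he.trans h8) h8
      have h12 : 0 < Real.log (Real.log n) / Real.log n := by
        apply div_pos _ (by linarith)
        exact Real.log_pos (by linarith)
      have h13 : y / Real.log y ≤ Real.log n / Real.log (Real.log n) := by
        have := one_div_le_one_div_of_le h12 h11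
        rw [one_div_div, one_div_div] at this
        exact this
      have h14 : ((2 * m : ℕ) : ℝ) ≤ κ n := by
        push_cast
        have := mul_le_mul_of_nonneg_left h13 hc.le
        linarith
      exact_mod_cast h14
    · have h5 : 2 * (m:ℝ) * (((i:ℝ) + 3) * Real.log 2) ≤ (c * y) * (2 * y) :=
        mul_le_mul h2m h9 h90.le (by positivity)
      have h6 : 8 * c / δ * y ^ 2 ≤ y ^ A := by
        rw [hyA]
        exact mul_le_mul_of_nonneg_right g6 (by positivity)
      have h8 : 8 * c * y ^ 2 ≤ δ * y ^ A := by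
        have := mul_le_mul_of_nonneg_left h6 hδ.le
        refine le_trans (le_of_eq ?_) this
        field_simp
      have h10 : 0 ≤ c * y ^ 2 := by positivity
      have h11 : 2 * (m:ℝ) * (((i:ℝ) + 3) * Real.log 2) ≤ 2 * (c * y ^ 2) := by
        refine h5.trans (le_of_eq ?_)
        ring
      linarith
    · apply ENNReal.ofReal_le_ofReal
      set ρ : ℝ := Real.exp 2 * (2 * m) * ((i + 3) * Real.log 2) / (δ ^ 2 * g) with hρ
      have hρ0 : 0 ≤ ρ := by positivity
      have hρD : ρ ≤ D * y ^ (2 - A) := by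
        rw [hρ, div_le_iff₀ (by positivity)]
        have h5 : Real.exp 2 * (2 * m) * ((i + 3) * Real.log 2) ≤ Real.exp 2 * (c * y) * (2 * y) := by
          apply mul_le_mul _ h9 h90.le (by positivity)
          exact mul_le_mul_of_nonneg_left h2m (Real.exp_pos _).le
        refine h5.trans ?_
        have h6 : D * y ^ (2 - A) * (δ ^ 2 * (δ * y ^ A / 2)) ≤ D * y ^ (2 - A) * (δ ^ 2 * g) := by
          apply mul_le_mul_of_nonneg_left _ (by positivity)
          exact mul_le_mul_of_nonneg_left hgF (by positivity)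
        refine le_trans ?_ h6
        have h10 : y ^ (2 - A) * y ^ A = y ^ 2 := by
          rw [← Real.rpow_add hy0, ← Real.rpow_natCast]
          congr 1
          push_cast
          ring
        have h8 : D * y ^ (2 - A) * (δ ^ 2 * (δ * y ^ A / 2)) = D * δ ^ 3 / 2 * y ^ 2 := by
          rw [← h10]
          ring
        rw [h8]
        have h11 : 4 * c * Real.exp 2 ≤ D * δ ^ 3 := by
          rw [div_le_iff₀ (by positivity)] at hD2
          exact hD2
        have h12 := mul_le_mul_of_nonneg_right h11 (show 0 ≤ y ^ 2 / 2 by positivity)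
        refine le_trans (le_of_eq ?_) (h12.trans (le_of_eq ?_))
        · ring
        · ring
      have hcore := core (m := m) hγ0 hB hD1 (by linarith) hly g3 g4 g7 ht hmge
      have hpow : ρ ^ m ≤ Real.exp (-((1 + γ) * y)) := (pow_le_pow_left₀ hρ0 hρD m).trans hcore
      have hexp2 : Real.exp y = 2 ^ (i - 1) := by
        rw [hy, mul_comm, Real.exp_mul, Real.exp_log (by norm_num)]
        have : ((i:ℝ) - 1) = ((i - 1 : ℕ) : ℝ) := by
          rw [Nat.cast_sub (by omega : 1 ≤ i)]
          push_cast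
          ring
        rw [this, Real.rpow_natCast]
      have hexp3 : Real.exp (-(γ * y)) = Real.exp (-(γ * Real.log 2)) ^ (i - 1) := by
        rw [← Real.exp_nat_mul]
        congr 1
        rw [Nat.cast_sub (by omega : 1 ≤ i), hy]
        push_cast
        ring
      have h16 : (2:ℝ) ^ (i + 3) = 16 * 2 ^ (i - 1) := by
        have e : i + 3 = (i - 1) + 4 := by omega
        rw [e, pow_add]
        ring
      calc (2:ℝ) ^ (i + 3) / g * (2 * ρ ^ m) ≤ (2:ℝ) ^ (i + 3) * (2 * Real.exp (-((1 + γ) * y))) := by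
            apply mul_le_mul _ _ (by positivity) (by positivity)
            · exact div_le_self (by positivity) hg1
            · exact mul_le_mul_of_nonneg_left hpow (by norm_num)
        _ = 32 * (2 ^ (i - 1) * (Real.exp (-y) * Real.exp (-(γ * y)))) := by
            rw [h16, ← Real.exp_add]
            have : -((1 + γ) * y) = -y + -(γ * y) := by ring
            rw [this]
            ring
        _ = _ := by
            rw [← hexp2, hexp3, ← mul_assoc (Real.exp y), ← Real.exp_add]
            simp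
  obtain ⟨i₁, hi₁⟩ := eventually_atTop.1 hev
  have hsum : ∑' i, P (if i₁ ≤ i then (good E (gp A δ i) δ i)ᶜ else ∅) ≠ ⊤ := by
    have hq : Real.exp (-(γ * Real.log 2)) < 1 := by
      rw [Real.exp_lt_one_iff]
      have : 0 < γ * Real.log 2 := by
        apply mul_pos hγ0
        linarith
      linarith
    have h1 : Summable (fun i : ℕ => 32 * (Real.exp (-(γ * Real.log 2)) ^ (i - 1))) := by
      apply Summable.mul_left
      rw [← summable_nat_add_iff 1]
      simpa using summable_geometric_of_lt_one (Real.exp_pos _).le hq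
    refine ne_top_of_le_ne_top h1.tsum_ofReal_ne_top (ENNReal.tsum_le_tsum fun i => ?_)
    split_ifs with h
    · exact hi₁ i h
    · simp
  filter_upwards [ae_eventually_notMem hsum] with ω hω
  filter_upwards [hω, eventually_ge_atTop i₁] with i h1 h2
  rw [if_pos h2] at h1
  simpa using h1

/-- the asymptotic formula above a power of the logarithm -/
theorem poly_asymp {c A : ℝ} (hc : 0 < c) (hA : 2 + 2 / c < A) {Ω : Type*} [MeasurableSpace Ω]
    {P : Measure Ω} [IsProbabilityMeasure P] {κ : ℕ → ℕ} {E : ℕ → Set Ω} (hM : Model P κ E)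
    (hκ : ∀ᶠ n : ℕ in atTop, c * (Real.log n / Real.log (Real.log n)) ≤ κ n) :
    ∀ᵐ ω ∂P, ∀ η : ℝ, 0 < η → ∀ᶠ x : ℝ in atTop, ∀ H : ℝ,
      Real.log x ^ A ≤ H → H ≤ x →
      |cnt E (Ioc ⌊x⌋₊ ⌊x + H⌋₊) ω * Real.log x / H - 1| ≤ η := by
  have hc2 : 0 < 2 / c := by positivity
  have hA0 : 0 < A := by linarith
  have hl2 : 1 / 2 ≤ Real.log 2 := by
    have := Real.log_two_gt_d9
    linarith
  have hl2' : Real.log 2 ≤ 1 := by
    have := Real.log_two_lt_d9
    linarith
  have hall : ∀ᵐ ω ∂P, ∀ r : ℕ, ∀ᶠ i : ℕ in atTop,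
      ω ∈ good E (gp A (1 / ((r:ℝ) + 4)) i) (1 / ((r:ℝ) + 4)) i := by
    rw [ae_all_iff]
    intro r
    apply scale hc hA hM hκ (by positivity)
    apply one_div_le_one_div_of_le (by norm_num)
    have : (0:ℝ) ≤ r := Nat.cast_nonneg r
    linarith
  filter_upwards [hall] with ω hω η hη
  obtain ⟨r, hr⟩ := exists_nat_ge (10 / η)
  set δ : ℝ := 1 / ((r:ℝ) + 4) with hδd
  have hr0 : (0:ℝ) ≤ r := Nat.cast_nonneg r
  have hδ : 0 < δ := by positivity
  have hδ1 : δ ≤ 1 / 4 := one_div_le_one_div_of_le (by norm_num) (by linarith)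
  have hδη : 10 * δ ≤ η := by
    rw [hδd, mul_one_div, div_le_iff₀ (by positivity)]
    rw [div_le_iff₀ hη] at hr
    nlinarith
  have hut : Tendsto (fun i : ℕ => (i : ℝ) * Real.log 2) atTop atTop := by
    apply Tendsto.atTop_mul_const (by linarith)
    exact tendsto_natCast_atTop_atTop
  have hbig : ∀ᶠ u : ℝ in atTop, 1 / δ ≤ u ^ A ∧ u ^ A ≤ 1 / 2 * Real.exp u := by
    have h2 := tendsto_rpow_atTop hA0
    have h3 : (fun y : ℝ => y ^ A) =o[atTop] fun y => Real.exp y := isLittleO_rpow_exp_atTop A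
    filter_upwards [h2.eventually_ge_atTop (1 / δ), h3.def (c := 1 / 2) (by norm_num),
      eventually_ge_atTop 0] with u h4 h5 h6
    rw [Real.norm_of_nonneg (by positivity), Real.norm_of_nonneg (Real.exp_pos _).le] at h5
    exact ⟨h4, h5⟩
  have hev : ∀ᶠ i : ℕ in atTop, ω ∈ good E (gp A δ i) δ i ∧ 3 / δ ≤ i ∧
      1 / δ ≤ ((i : ℝ) * Real.log 2) ^ A ∧ ((i : ℝ) * Real.log 2) ^ A ≤ 2 ^ (i - 1) ∧ 1 ≤ i := by
    filter_upwards [hω r, tendsto_natCast_atTop_atTop.eventually_ge_atTop (3 / δ),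
      hut.eventually hbig, eventually_ge_atTop 1] with i h1 h2 h3 h4
    refine ⟨h1, h2, h3.1, h3.2.trans (le_of_eq ?_), h4⟩
    rw [mul_comm (i:ℝ), Real.exp_mul, Real.exp_log (by norm_num), Real.rpow_natCast]
    have e : i = (i - 1) + 1 := by omega
    rw [e, pow_succ]
    simp
    ring
  obtain ⟨i₂, hi₂⟩ := eventually_atTop.1 hev
  filter_upwards [eventually_ge_atTop ((2:ℝ) ^ (i₂ + 1))] with x hx H hH1 hH2
  have hx0 : 0 < x := lt_of_lt_of_le (by positivity) hx
  have hfl : 2 ^ (i₂ + 1) ≤ ⌊x⌋₊ := by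
    apply Nat.le_floor
    push_cast
    exact hx
  set i : ℕ := Nat.log 2 ⌊x⌋₊ with hi
  have hfl0 : ⌊x⌋₊ ≠ 0 := by
    have : 0 < 2 ^ (i₂ + 1) := by positivity
    omega
  have hii : i₂ + 1 ≤ i := Nat.le_log_of_pow_le (by norm_num) hfl
  have hx1 : (2:ℝ) ^ i ≤ x := by
    have h1 : 2 ^ i ≤ ⌊x⌋₊ := Nat.pow_log_le_self 2 hfl0
    have h2 : ((2:ℝ) ^ i) ≤ (⌊x⌋₊ : ℝ) := by exact_mod_cast h1
    exact h2.trans (Nat.floor_le hx0.le)
  have hx2 : x < 2 ^ (i + 1) := by
    have h1 : ⌊x⌋₊ < 2 ^ (i + 1) := Nat.lt_pow_succ_log_self (by norm_num) _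
    rw [Nat.floor_lt hx0.le] at h1
    push_cast at h1
    exact h1
  obtain ⟨g1, g2, g3, g4, g5⟩ := hi₂ i (by omega)
  have hi0 : (1:ℝ) ≤ i := by exact_mod_cast g5
  set F : ℝ := ((i : ℝ) * Real.log 2) ^ A with hF
  have hF0 : 0 ≤ F := by positivity
  have hδF : 1 ≤ δ * F := by
    rw [div_le_iff₀ hδ] at g3
    linarith
  have hg0 : 0 < gp A δ i := Nat.floor_pos.2 hδF
  have hgle : (gp A δ i : ℝ) ≤ δ * F := Nat.floor_le (by positivity)
  have e2 : (i:ℝ) * Real.log 2 ≤ Real.log x := by
    rw [← Real.log_pow]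
    exact Real.log_le_log (by positivity) hx1
  refine (det_count (c := fun n => (E n).indicator (fun _ => (1:ℝ)) ω)
    (fun n => Set.indicator_nonneg (fun _ _ => zero_le_one) _) hg0 ?_ hδ hδ1 g2
    (fun j hj1 hj2 => g1 j hj1 hj2) hx1 hx2 ?_ hH2).trans hδη
  · have h1 : (gp A δ i : ℝ) ≤ 2 ^ (i - 1) := by nlinarith
    exact_mod_cast h1
  · refine hgle.trans (mul_le_mul_of_nonneg_left (le_trans ?_ hH1) hδ.le)
    exact Real.rpow_le_rpow (by positivity) e2 hA0.le

end Pool.Agent.H453.PO
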