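import Pool.Agent.H453.PO.Win
import Pool.Agent.H453.PO.Asymp

/-! # In every model of order at least `c log n / log log n` there are gaps of length `(log X) ^ B`, `B < 2` -/

set_option autoImplicit false

namespace Pool.Agent.H453.PO

open Finset MeasureTheory Filter Topology
open Q198.CI

theorem two_lower {c B : ℝ} (hc : 0 < c) (hB : B < 2) {Ω : Type} [MeasurableSpace Ω]
    {P : Measure Ω} [hP : IsProbabilityMeasure P] {κ : ℕ → ℕ} {E : ℕ → Set Ω} (hM : Model P κ E)
    (hκ : ∀ᶠ n : ℕ in atTop, c * (Real.log n / Real.log (Real.log n)) ≤ κ n) :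
    ∀ᵐ ω ∂P, ∃ᶠ X : ℕ in atTop, ∃ x : ℕ, (x : ℝ) + Real.log X ^ B ≤ X ∧
      ∀ n : ℕ, x < n → (n : ℝ) ≤ x + Real.log X ^ B → ω ∉ E n := by
  obtain ⟨δ, hδ, hwin⟩ := poly_win (c / 2) (2 - B) (by positivity) (by linarith)
  have hX : Tendsto (fun i : ℕ => 4 ^ i) atTop atTop := tendsto_pow_atTop_atTop_of_one_lt (by norm_num)
  obtain ⟨n₀, hn₀⟩ := eventually_atTop.1 hκ
  set bad : ℕ → Set Ω := fun i => {ω | ¬ ∃ x : ℕ, (x : ℝ) + Real.log ((4 ^ i : ℕ) : ℝ) ^ B ≤ ((4 ^ i : ℕ) : ℝ) ∧
    ∀ n : ℕ, x < n → (n : ℝ) ≤ x + Real.log ((4 ^ i : ℕ) : ℝ) ^ B → ω ∉ E n} with hbad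
  have hlogt : Tendsto (fun i : ℕ => Real.log ((4 ^ i : ℕ) : ℝ)) atTop atTop :=
    Real.tendsto_log_atTop.comp (tendsto_natCast_atTop_atTop.comp hX)
  have hev : ∀ᶠ i : ℕ in atTop, P (bad i) ≤ ENNReal.ofReal (((4 : ℝ) ^ (-δ)) ^ i) := by
    filter_upwards [hX.eventually hwin, hlogt.eventually_ge_atTop 100, eventually_ge_atTop (n₀ + 1)]
      with i h1 h2 h3
    set X : ℕ := 4 ^ i with hXd
    set L : ℝ := Real.log (X : ℝ) with hL
    have hL0 : 0 < L := by linarith
    have hlL : 0 < Real.log L := Real.log_pos (by linarith)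
    have hXp : (0 : ℝ) < X := by
      have : 0 < X := by positivity
      exact_mod_cast this
    have hsq : Nat.sqrt X = 2 ^ i := by
      have : X = 2 ^ i * 2 ^ i := by
        rw [hXd, ← mul_pow]
        norm_num
      rw [this, Nat.sqrt_eq]
    have hi2 : i < 2 ^ i := Nat.lt_two_pow_self
    have h2i : 2 ≤ 2 ^ i := by
      calc 2 = 2 ^ 1 := (pow_one 2).symm
        _ ≤ 2 ^ i := Nat.pow_le_pow_right (by norm_num) (by omega)
    have hloc : Loc P ⌈c / 2 * L / Real.log L⌉₊ (Icc (Nat.sqrt X + 1) X) E := by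
      rw [hsq]
      refine ⟨fun n hn => ?_, fun n _ => hM.meas n, fun T hT hTc => hM.indep T fun n hn => ?_⟩
      · rw [mem_Icc] at hn
        omega
      · have h4 := hT hn
        rw [mem_Icc] at h4
        refine ⟨by omega, hTc.trans ?_⟩
        rw [Nat.ceil_le]
        have h5 := hn₀ n (by omega)
        refine le_trans ?_ h5
        have hn0 : (0:ℝ) < n := by exact_mod_cast (by omega : 0 < n)
        have h6 : L / 2 ≤ Real.log n := by
          have h7 : Real.log ((2:ℝ) ^ i) ≤ Real.log n := by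
            apply Real.log_le_log (by positivity)
            have : 2 ^ i ≤ n := by omega
            exact_mod_cast this
          have h8 : L = 2 * Real.log ((2:ℝ) ^ i) := by
            have : (X : ℝ) = ((2:ℝ) ^ i) ^ 2 := by
              rw [hXd]
              push_cast
              rw [← pow_mul, mul_comm i 2, pow_mul]
              norm_num
            rw [hL, this, Real.log_pow]
            push_cast
            ring
          linarith
        have he : Real.exp 1 ≤ L / 2 := by
          have := Real.exp_one_lt_d9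
          linarith
        have h11 : Real.log (Real.log n) / Real.log n ≤ Real.log (L / 2) / (L / 2) :=
          Real.log_div_self_antitoneOn he (he.trans h6) h6
        have h12 : 0 < Real.log (Real.log n) / Real.log n := by
          apply div_pos _ (by linarith)
          exact Real.log_pos (by linarith)
        have h13 : (L / 2) / Real.log (L / 2) ≤ Real.log n / Real.log (Real.log n) := by
          have := one_div_le_one_div_of_le h12 h11
          rw [one_div_div, one_div_div] at this
          exact this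
        have h14 : (L / 2) / Real.log L ≤ (L / 2) / Real.log (L / 2) := by
          apply div_le_div_of_nonneg_left (by positivity)
          · exact Real.log_pos (by linarith)
          · exact Real.log_le_log (by positivity) (by linarith)
        have h15 := mul_le_mul_of_nonneg_left (h14.trans h13) hc.le
        refine le_trans (le_of_eq ?_) h15
        ring
    have h4 := h1 Ω inferInstance P hP E ⌈c / 2 * L / Real.log L⌉₊ hloc (Nat.le_ceil _)
    have e2B : (2 : ℝ) - (2 - B) = B := by ring
    rw [e2B] at h4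
    have h5 : P.real (bad i) ≤ (X : ℝ) ^ (-δ) := h4
    have h6 : (X : ℝ) ^ (-δ) = ((4 : ℝ) ^ (-δ)) ^ i := by
      rw [hXd]
      push_cast
      rw [← Real.rpow_natCast, ← Real.rpow_natCast, ← Real.rpow_mul (by norm_num),
        ← Real.rpow_mul (by norm_num), mul_comm]
    rw [← h6]
    have h7 : P (bad i) = ENNReal.ofReal (P.real (bad i)) := by
      unfold Measure.real
      rw [ENNReal.ofReal_toReal (measure_ne_top P _)]
    rw [h7]
    exact ENNReal.ofReal_le_ofReal h5
  obtain ⟨i₁, hi₁⟩ := eventually_atTop.1 hev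
  have hq : (4 : ℝ) ^ (-δ) < 1 := Real.rpow_lt_one_of_one_lt_of_neg (by norm_num) (by linarith)
  have hsum : ∑' i, P (if i₁ ≤ i then bad i else ∅) ≠ ⊤ := by
    have h1 : Summable (fun i : ℕ => ((4 : ℝ) ^ (-δ)) ^ i) :=
      summable_geometric_of_lt_one (by positivity) hq
    refine ne_top_of_le_ne_top h1.tsum_ofReal_ne_top (ENNReal.tsum_le_tsum fun i => ?_)
    split_ifs with h
    · exact hi₁ i h
    · simp
  filter_upwards [ae_eventually_notMem hsum] with ω hω
  have h1 : ∀ᶠ i : ℕ in atTop, ∃ x : ℕ, (x : ℝ) + Real.log ((4 ^ i : ℕ) : ℝ) ^ B ≤ ((4 ^ i : ℕ) : ℝ) ∧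
      ∀ n : ℕ, x < n → (n : ℝ) ≤ x + Real.log ((4 ^ i : ℕ) : ℝ) ^ B → ω ∉ E n := by
    filter_upwards [hω, eventually_ge_atTop i₁] with i h2 h3
    rw [if_pos h3] at h2
    by_contra hcon
    exact h2 hcon
  exact hX.frequently h1.frequently

end Pool.Agent.H453.PO
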