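import Pool.Agent.H453.PO.Lower
import Pool.Agent.H453.LP.Main

/-! # Models which are independent on consecutive intervals, with long gaps for infinitely many scales -/

set_option autoImplicit false

namespace Pool.Agent.H453.PO

open Finset MeasureTheory Filter Topology
open Q198.CI
open Pool.Agent.Q51.LI (IsRandomSet HasGap)

/-- Gluing of independent models. -/
theorem glue_models {κ : ℕ → ℕ} (X k : ℕ → ℕ) (hX : StrictMono X)
    (hk : ∀ j n, 3 ≤ n → n ≤ X j → κ n ≤ k j)
    (Ω : ℕ → Type) (mΩ : ∀ j, MeasurableSpace (Ω j)) (P : ∀ j, @Measure (Ω j) (mΩ j))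
    (hP : ∀ j, @IsProbabilityMeasure (Ω j) (mΩ j) (P j)) (E : ∀ j, ℕ → Set (Ω j))
    (hE : ∀ j Y, IsRandomSet (P j) (k j) Y (E j)) :
    ∃ (Ω' : Type) (_ : MeasurableSpace Ω') (P' : Measure Ω') (_ : IsProbabilityMeasure P')
      (E' : ℕ → Set Ω') (ev : ∀ j, Ω' → Ω j), Model P' κ E' ∧
      (∀ j n, 3 ≤ n → n ≤ X j → (∀ i < j, X i < n) → E' n = ev j ⁻¹' E j n) ∧
      ∀ j (S : Set (Ω j)), P' (ev j ⁻¹' S) ≤ P j S := by
  classical
  have hex : ∀ n : ℕ, ∃ j, n ≤ X j := fun n => ⟨n, hX.le_apply⟩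
  set b : ℕ → ℕ := fun n => Nat.find (hex n) with hb
  have hb1 : ∀ n, n ≤ X (b n) := fun n => Nat.find_spec (hex n)
  refine ⟨(∀ j, Ω j), inferInstance, Measure.infinitePi P, inferInstance,
    fun n => if 3 ≤ n then {ω | ω (b n) ∈ E (b n) n} else ∅, fun j ω => ω j, ?_, ?_, ?_⟩
  · have hmeas : ∀ j n, 3 ≤ n → MeasurableSet (E j n) := fun j n hn =>
      (hE j n).1 n (mem_Icc.2 ⟨hn, le_rfl⟩)
    refine ⟨fun n => ?_, fun T hT => ?_⟩
    · split_ifs with h
      · exact measurable_pi_apply (b n) (hmeas (b n) n h)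
      · exact MeasurableSet.empty
    · have h3 : ∀ n ∈ T, 3 ≤ n := fun n hn => (hT n hn).1
      have e1 : (⋂ n ∈ T, (if 3 ≤ n then {ω : ∀ j, Ω j | ω (b n) ∈ E (b n) n} else ∅)) =
          Set.pi (T.image b) (fun j => ⋂ n ∈ T.filter (fun n => b n = j), E j n) := by
        ext ω
        simp only [Set.mem_iInter, Set.mem_pi, coe_image, Set.mem_image, mem_coe, mem_filter]
        constructor
        · rintro h j ⟨n, hn, rfl⟩ n' ⟨hn', hbn⟩
          have := h n' hn'
          rw [if_pos (h3 n' hn'), Set.mem_ofPred_eq, hbn] at this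
          exact this
        · intro h n hn
          rw [if_pos (h3 n hn), Set.mem_ofPred_eq]
          exact h (b n) ⟨n, hn, rfl⟩ n ⟨hn, rfl⟩
      rw [e1, Measure.infinitePi_pi]
      · have e2 : ∀ j ∈ T.image b, P j (⋂ n ∈ T.filter (fun n => b n = j), E j n) =
            ENNReal.ofReal (∏ n ∈ T.filter (fun n => b n = j), 1 / Real.log n) := by
          intro j hj
          obtain ⟨n, hn, hnj⟩ := mem_image.1 hj
          refine (hE j (X j)).2 _ (fun n' hn' => ?_) ?_
          · rw [mem_filter] at hn'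
            rw [mem_Icc]
            refine ⟨h3 n' hn'.1, ?_⟩
            have := hb1 n'
            rw [hn'.2] at this
            exact this
          · refine (card_filter_le _ _).trans ((hT n hn).2.trans (hk j n (h3 n hn) ?_))
            have := hb1 n
            rw [hnj] at this
            exact this
        rw [prod_congr rfl e2, ← ENNReal.ofReal_prod_of_nonneg]
        · congr 1
          exact prod_fiberwise_of_maps_to (fun n hn => mem_image_of_mem b hn) _
        · intro j _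
          exact prod_nonneg fun n _ => one_div_nonneg.2 (Real.log_natCast_nonneg n)
      · intro j _
        exact Finset.measurableSet_biInter _ fun n hn => hmeas j n (h3 n (mem_filter.1 hn).1)
  · intro j n h3 h1 h2
    have hbj : b n = j := by
      simp only [hb]
      rw [Nat.find_eq_iff]
      exact ⟨h1, fun i hi => not_le.2 (h2 i hi)⟩
    simp only [if_pos h3]
    ext ω
    rw [Set.mem_ofPred_eq, Set.mem_preimage, hbj]
  · intro j S
    have h1 : (fun ω : ∀ j, Ω j => ω j) ⁻¹' S ⊆ (fun ω : ∀ j, Ω j => ω j) ⁻¹' (toMeasurable (P j) S) :=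
      Set.preimage_mono (subset_toMeasurable _ _)
    refine (measure_mono h1).trans ?_
    have h2 := (measurePreserving_eval_infinitePi P j).measure_preimage
      (measurableSet_toMeasurable (P j) S).nullMeasurableSet
    have h3 : (fun ω : ∀ j, Ω j => ω j) = Function.eval j := rfl
    rw [h3, h2, measure_toMeasurable]

/-- For infinitely many scales the largest gap can be `(log X) ^ B`, for all `B < 2 + 2 / c`, if
`κ n ≤ c log X / log log X` for all `n ≤ X`, for infinitely many `X`. -/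
theorem freq_lower {c : ℝ} (hc : 0 < c) {κ : ℕ → ℕ}
    (hκ : ∃ᶠ X : ℕ in atTop, ∀ n : ℕ, 3 ≤ n → n ≤ X →
      (κ n : ℝ) ≤ c * (Real.log X / Real.log (Real.log X))) :
    ∃ (Ω : Type) (_ : MeasurableSpace Ω) (P : Measure Ω) (_ : IsProbabilityMeasure P)
      (E : ℕ → Set Ω), Model P κ E ∧
      ∀ᵐ ω ∂P, ∀ B : ℝ, B < 2 + 2 / c → ∃ᶠ X : ℕ in atTop, ∃ x : ℕ, (x : ℝ) + Real.log X ^ B ≤ X ∧
        ∀ n : ℕ, x < n → (n : ℝ) ≤ x + Real.log X ^ B → ω ∉ E n := by
  classical
  have hc2 : 0 < 2 / c := by positivity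
  have hlogt : Tendsto (fun x : ℕ => Real.log x) atTop atTop :=
    Real.tendsto_log_atTop.comp tendsto_natCast_atTop_atTop
  have hllt : Tendsto (fun x : ℕ => Real.log (Real.log x)) atTop atTop := Real.tendsto_log_atTop.comp hlogt
  obtain ⟨A, hA⟩ : ∃ A : ℕ → ℝ, ∀ m, A m = 2 + 2 / c - 1 / ((m : ℝ) + 1) := ⟨_, fun _ => rfl⟩
  have hA1 : ∀ m, 1 < A m := by
    intro m
    rw [hA]
    have : (1:ℝ) / ((m : ℝ) + 1) ≤ 1 := by
      rw [div_le_one (by positivity)]
      have : (0:ℝ) ≤ m := Nat.cast_nonneg m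
      linarith
    linarith
  have hex : ∀ m : ℕ, ∃ X : ℕ, m < X ∧ 8 ^ m ≤ X ∧ 4 * ((m : ℝ) + 2) ≤ Real.log X ^ A m ∧
      1 ≤ Real.log X ∧ ∃ k : ℕ, (∀ n : ℕ, 3 ≤ n → n ≤ X → κ n ≤ k) ∧
      ∃ (Ω : Type) (_ : MeasurableSpace Ω) (P : Measure Ω) (E : ℕ → Set Ω),
        IsProbabilityMeasure P ∧ (∀ Y, IsRandomSet P k Y E) ∧
        P.real {ω | ¬ HasGap E X (Real.log X ^ A m) ω} ≤ (X : ℝ) ^ (-(1 / 3) : ℝ) := by
    intro m
    have hsharp := Pool.Agent.H453.LP.sharp c (1 / ((m : ℝ) + 1)) hc (by positivity)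
    have hAt : Tendsto (fun x : ℕ => Real.log x ^ A m) atTop atTop :=
      (tendsto_rpow_atTop (by linarith [hA1 m])).comp hlogt
    obtain ⟨X, h1, h2, h3, h4, h5, h6, h7⟩ := (hκ.and_eventually (hsharp.and
      ((eventually_gt_atTop m).and ((eventually_ge_atTop (8 ^ m)).and
        ((hAt.eventually_ge_atTop (4 * ((m : ℝ) + 2))).and ((hlogt.eventually_ge_atTop 1).and
          (hllt.eventually_ge_atTop 1))))))).exists
    have h8 : 0 ≤ c * (Real.log X / Real.log (Real.log X)) := by positivity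
    refine ⟨X, h3, h4, h5, h6, ⌊c * (Real.log X / Real.log (Real.log X))⌋₊,
      fun n hn1 hn2 => Nat.le_floor (h1 n hn1 hn2), ?_⟩
    rw [hA]
    refine h2 _ ?_
    rw [mul_div_assoc]
    exact Nat.floor_le h8
  choose g hg1 hg2 hg3 hg5 k hk Ω mΩ P E hP hE hbad using hex
  set q : ℕ → ℕ := fun j => g^[j] 0 with hq
  have hqs : ∀ j, q (j + 1) = g (q j) := fun j => Function.iterate_succ_apply' g j 0
  have hqm : StrictMono q := strictMono_nat_of_lt_succ fun j => by
    rw [hqs]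
    exact hg1 _
  set X : ℕ → ℕ := fun j => q (j + 1) with hX
  have hXm : StrictMono X := fun i j hij => hqm (by omega)
  have hXq : ∀ j, X j = g (q j) := hqs
  obtain ⟨Ω', mΩ', P', hP', E', ev, hM, hev, hle⟩ := glue_models X (fun j => k (q j)) hXm
    (fun j n hn1 hn2 => hk (q j) n hn1 (by rw [← hXq]; exact hn2)) (fun j => Ω (q j))
    (fun j => mΩ (q j)) (fun j => P (q j)) (fun j => hP (q j)) (fun j => E (q j))
    (fun j Y => hE (q j) Y)
  refine ⟨Ω', mΩ', P', hP', E', hM, ?_⟩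
  set bad : ℕ → Set Ω' := fun j => ev j ⁻¹' {ω | ¬ HasGap (E (q j)) (g (q j)) (Real.log (g (q j)) ^ A (q j)) ω} with hbd
  have hbound : ∀ j, P' (bad j) ≤ ENNReal.ofReal ((1 / 2 : ℝ) ^ j) := by
    intro j
    refine (hle j _).trans ?_
    have h1 := hbad (q j)
    have h2 : (P (q j)) {ω | ¬ HasGap (E (q j)) (g (q j)) (Real.log (g (q j)) ^ A (q j)) ω} =
        ENNReal.ofReal ((P (q j)).real {ω | ¬ HasGap (E (q j)) (g (q j)) (Real.log (g (q j)) ^ A (q j)) ω}) := by
      have := hP (q j)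
      unfold Measure.real
      rw [ENNReal.ofReal_toReal (measure_ne_top _ _)]
    rw [h2]
    refine ENNReal.ofReal_le_ofReal (h1.trans ?_)
    have h3 : (8 : ℝ) ^ j ≤ g (q j) := by
      have h4 : 8 ^ j ≤ 8 ^ (q j) := Nat.pow_le_pow_right (by norm_num) hqm.le_apply
      exact_mod_cast h4.trans (hg2 (q j))
    calc ((g (q j) : ℕ) : ℝ) ^ (-(1 / 3) : ℝ) ≤ ((8 : ℝ) ^ j) ^ (-(1 / 3) : ℝ) :=
          Real.rpow_le_rpow_of_nonpos (by positivity) h3 (by norm_num)
      _ = (1 / 2 : ℝ) ^ j := by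
          have h8 : (8 : ℝ) = (2 : ℝ) ^ (3 : ℝ) := by norm_num
          rw [← Real.rpow_natCast, ← Real.rpow_mul (by norm_num), h8, ← Real.rpow_mul (by norm_num)]
          have : (3 : ℝ) * ((j : ℝ) * (-(1 / 3))) = -(j : ℝ) := by ring
          rw [this, Real.rpow_neg (by norm_num), Real.rpow_natCast, one_div, inv_pow]
  have hsum : ∑' j, P' (bad j) ≠ ⊤ := by
    have h1 : Summable (fun j : ℕ => (1 / 2 : ℝ) ^ j) := summable_geometric_two
    exact ne_top_of_le_ne_top h1.tsum_ofReal_ne_top (ENNReal.tsum_le_tsum hbound)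
  filter_upwards [ae_eventually_notMem hsum] with ω hω B hB
  have hXt : Tendsto X atTop atTop := hXm.tendsto_atTop
  obtain ⟨η, hη⟩ : ∃ η, η = (2 + 2 / c - B) / 2 := ⟨_, rfl⟩
  have hη0 : 0 < η := by
    rw [hη]
    linarith
  have hLη : Tendsto (fun x : ℕ => Real.log x ^ η) atTop atTop := (tendsto_rpow_atTop hη0).comp hlogt
  have hinv : ∀ᶠ j : ℕ in atTop, (1:ℝ) / ((q j : ℝ) + 1) ≤ η := by
    obtain ⟨r, hr⟩ := exists_nat_one_div_lt hη0
    filter_upwards [eventually_ge_atTop r] with j hj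
    refine le_trans (one_div_le_one_div_of_le (by positivity) ?_) hr.le
    have : r ≤ q j := hj.trans hqm.le_apply
    have : (r : ℝ) ≤ q j := by exact_mod_cast this
    linarith
  refine hXt.frequently (Eventually.frequently ?_)
  filter_upwards [hω, hinv, hXt.eventually (hLη.eventually_ge_atTop 4)] with j hj hj2 hj3
  simp only [hbd, Set.mem_preimage, Set.mem_ofPred_eq, not_not] at hj
  obtain ⟨a, b, h1, h2, h3, -, -, h6, h7⟩ := hj
  have hlog1 := hg5 (q j)
  have hAq := hg3 (q j)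
  set L : ℝ := Real.log ((g (q j) : ℕ) : ℝ) with hL
  have hL0 : 0 < L := by linarith
  have hXj : Real.log ((X j : ℕ) : ℝ) = L := by rw [hXq]
  rw [hXj] at hj3 ⊢
  have hAB : L ^ A (q j) = L ^ (A (q j) - B) * L ^ B := by
    rw [← Real.rpow_add hL0]
    congr 1
    ring
  have hLB : 0 < L ^ B := by positivity
  have hABq : 4 ≤ L ^ (A (q j) - B) := by
    refine hj3.trans (Real.rpow_le_rpow_of_exponent_le hlog1 ?_)
    rw [hA]
    linarith
  have h4B : 4 * L ^ B ≤ L ^ A (q j) := by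
    rw [hAB]
    exact mul_le_mul_of_nonneg_right hABq hLB.le
  have hlen : L ^ B + (q j + 2 : ℝ) ≤ (b : ℝ) - a := by linarith
  have hqj0 : (0 : ℝ) ≤ (q j : ℕ) := Nat.cast_nonneg _
  refine ⟨a + q j, ?_, fun n hn1 hn2 hn3 => ?_⟩
  · have h8 : (b : ℝ) ≤ X j := by
      rw [hXq]
      exact_mod_cast h3
    push_cast
    linarith
  · push_cast at hn2
    have hnb : n < b := by
      have : (n : ℝ) < b := by linarith
      exact_mod_cast this
    have hE' := hev j n (by omega) (by rw [hXq]; omega) (fun i hi => by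
      have h9 : X i ≤ q j := hqm.monotone (by omega)
      omega)
    rw [hE'] at hn3
    exact h6 n (by omega) hnb hn3

end Pool.Agent.H453.PO
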