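import Pool.Agent.H453.LP.LowPoly

/-! # Void windows, for random sets which are independent of order `k` on a finite set of integers only -/

set_option autoImplicit false

namespace Pool.Agent.H453.PO

open Finset MeasureTheory Filter Topology
open Pool.Agent.Q51.LI (pr pr_mem ind ind_mem prod_ind prod_one_sub_ind void el el_le B B_near second_moment one_sub_ge)
open Pool.Agent.H453.LI (tendsto_logX tendsto_loglogX loglog_small)
open Pool.Agent.H453.LP (sq_le_exp)

variable {Ω : Type} [MeasurableSpace Ω] {P : Measure Ω} {k X : ℕ} {E : ℕ → Set Ω} {S₀ : Finset ℕ}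

/-- Independence of order `k` on the finite set `S₀`. -/
def Loc (P : Measure Ω) (k : ℕ) (S₀ : Finset ℕ) (E : ℕ → Set Ω) : Prop :=
  (∀ n ∈ S₀, 3 ≤ n) ∧ (∀ n ∈ S₀, MeasurableSet (E n)) ∧
    ∀ S : Finset ℕ, S ⊆ S₀ → S.card ≤ k → P (⋂ n ∈ S, E n) = ENNReal.ofReal (∏ n ∈ S, 1 / Real.log n)

lemma measurable_inter (hE : Loc P k S₀ E) {T : Finset ℕ} (hT : T ⊆ S₀) :
    MeasurableSet (⋂ n ∈ T, E n) :=
  Finset.measurableSet_biInter T fun n hn => hE.2.1 n (hT hn)

lemma measurable_void (hE : Loc P k S₀ E) {T : Finset ℕ} (hT : T ⊆ S₀) :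
    MeasurableSet (void E T) := by
  have : void E T = ⋂ n ∈ T, (E n)ᶜ := by
    ext ω
    simp [void]
  rw [this]
  exact Finset.measurableSet_biInter T fun n hn => (hE.2.1 n (hT hn)).compl

lemma real_inter (hE : Loc P k S₀ E) {T : Finset ℕ} (hT : T ⊆ S₀) (hc : T.card ≤ k) :
    P.real (⋂ n ∈ T, E n) = ∏ n ∈ T, pr n := by
  unfold Measure.real
  rw [hE.2.2 T hT hc, ENNReal.toReal_ofReal]
  · rfl
  · exact prod_nonneg fun n hn => by
      have := pr_mem (hE.1 n (hT hn))
      exact this.1.le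

lemma integrable_el [IsProbabilityMeasure P] (hE : Loc P k S₀ E) {S : Finset ℕ} (hS : S ⊆ S₀) (j : ℕ) :
    Integrable (fun ω => el (ind E ω) S j) P := by
  unfold el
  refine integrable_finset_sum _ fun T hT => ?_
  have hT' : T ⊆ S₀ := (mem_powersetCard.1 hT).1.trans hS
  simp_rw [prod_ind]
  exact (integrable_const (1 : ℝ)).indicator (measurable_inter hE hT')

lemma integral_el [IsProbabilityMeasure P] (hE : Loc P k S₀ E) {S : Finset ℕ} (hS : S ⊆ S₀) {j : ℕ} (hj : j ≤ k) :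
    ∫ ω, el (ind E ω) S j ∂P = el pr S j := by
  unfold el
  rw [integral_finset_sum]
  · refine sum_congr rfl fun T hT => ?_
    have hT' : T ⊆ S₀ := (mem_powersetCard.1 hT).1.trans hS
    simp_rw [prod_ind]
    rw [integral_indicator (measurable_inter hE hT'), setIntegral_const, smul_eq_mul, mul_one,
      real_inter hE hT' (by rw [(mem_powersetCard.1 hT).2]; exact hj)]
  · intro T hT
    have hT' : T ⊆ S₀ := (mem_powersetCard.1 hT).1.trans hS
    simp_rw [prod_ind]
    exact (integrable_const (1 : ℝ)).indicator (measurable_inter hE hT')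

lemma integrable_B [IsProbabilityMeasure P] (hE : Loc P k S₀ E) {S : Finset ℕ} (hS : S ⊆ S₀) (K : ℕ) :
    Integrable (fun ω => B (ind E ω) S K) P := by
  unfold B
  exact integrable_finset_sum _ fun j _ => (integrable_el hE hS j).const_mul _

lemma integral_B [IsProbabilityMeasure P] (hE : Loc P k S₀ E) {S : Finset ℕ} (hS : S ⊆ S₀) {K : ℕ} (hK : K ≤ k) :
    ∫ ω, B (ind E ω) S K ∂P = B pr S K := by
  unfold B
  rw [integral_finset_sum _ fun j _ => (integrable_el hE hS j).const_mul _]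
  refine sum_congr rfl fun j hj => ?_
  rw [integral_const_mul, integral_el hE hS (by have := mem_range.1 hj; omega)]

/-- The probability that the random set avoids `S` is the one of full independence, up to `2 e^(t μ) / t^k`. -/
theorem void_near [IsProbabilityMeasure P] (hk : 1 ≤ k) (hE : Loc P k S₀ E) {S : Finset ℕ} (hS : S ⊆ S₀)
    (t : ℝ) (ht : 0 < t) :
    |P.real (void E S) - ∏ n ∈ S, (1 - pr n)| ≤ 2 * (Real.exp (t * ∑ n ∈ S, pr n) / t ^ k) := by
  have hpr : ∀ n ∈ S, 0 ≤ pr n ∧ pr n ≤ 1 := fun n hn => by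
    have := pr_mem (hE.1 n (hS hn))
    exact ⟨this.1.le, this.2.le⟩
  obtain ⟨K, rfl⟩ : ∃ K, k = K + 1 := ⟨k - 1, by omega⟩
  have h1 := B_near pr S hpr K
  have h2 : |B pr S K - P.real (void E S)| ≤ el pr S (K + 1) := by
    have e1 : P.real (void E S) = ∫ ω, ∏ n ∈ S, (1 - ind E ω n) ∂P := by
      simp_rw [prod_one_sub_ind]
      rw [integral_indicator (measurable_void hE hS), setIntegral_const, smul_eq_mul, mul_one]
    have i1 : Integrable (fun ω => ∏ n ∈ S, (1 - ind E ω n)) P := by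
      simp_rw [prod_one_sub_ind]
      exact (integrable_const (1 : ℝ)).indicator (measurable_void hE hS)
    rw [e1, ← integral_B hE hS (K := K) (by omega), ← integral_sub (integrable_B hE hS K) i1,
      ← integral_el hE hS (j := K + 1) le_rfl]
    refine (abs_integral_le_integral_abs).trans (integral_mono_of_nonneg ?_ (integrable_el hE hS _) ?_)
    · exact Filter.Eventually.of_forall fun ω => abs_nonneg _
    · exact Filter.Eventually.of_forall fun ω => B_near (ind E ω) S (fun n _ => ind_mem E ω n) K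
  have h3 := el_le pr S (fun n hn => (hpr n hn).1) (K + 1) t ht
  have h4 : P.real (void E S) - ∏ n ∈ S, (1 - pr n) =
      (B pr S K - ∏ n ∈ S, (1 - pr n)) - (B pr S K - P.real (void E S)) := by ring
  rw [h4]
  refine (abs_sub _ _).trans ?_
  linarith

theorem low_win [IsProbabilityMeasure P] (h : ℕ) (s t : ℝ) (hX : 100 ≤ Real.log X) (hk : 2 ≤ k)
    (hE : Loc P k (Icc (Nat.sqrt X + 1) X) E) (hh : (1 : ℝ) + h ≤ Real.exp (Real.log X / 2) / 4)
    (hs : h * (2 / Real.log X) ≤ s) (ht : 0 < t) :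
    P.real {ω | ¬ ∃ x : ℕ, x + h ≤ X ∧ ∀ n : ℕ, x < n → n ≤ x + h → ω ∉ E n} ≤
      Real.exp (4 * s) * (Real.exp (-(Real.log X / 2)) + 6 * (Real.exp (t * (2 * s)) / t ^ k)) := by
  classical
  set L := Real.log X with hLdef
  have hX0' : X ≠ 0 := by
    rintro rfl
    simp at hLdef
    linarith
  have hX0 : (0 : ℝ) < X := by exact_mod_cast Nat.pos_of_ne_zero hX0'
  have hXe : Real.exp L = X := Real.exp_log hX0
  have hX3 : 3 ≤ X := by
    have : (3 : ℝ) ≤ X := by
      rw [← hXe]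
      have := Real.add_one_le_exp L
      linarith
    exact_mod_cast this
  -- the square root
  set M := Nat.sqrt X + 1 with hM
  have hsq : Real.exp (L / 2) ^ 2 = X := by
    rw [← Real.exp_nat_mul, ← hXe]
    congr 1
    push_cast
    ring
  have hM1 : Real.exp (L / 2) ≤ M := by
    have h1 : X < M ^ 2 := by rw [hM, sq]; exact Nat.lt_succ_sqrt X
    have h2 : (X : ℝ) < (M : ℝ) ^ 2 := by exact_mod_cast h1
    rw [← hsq] at h2
    exact (lt_of_pow_lt_pow_left₀ 2 (Nat.cast_nonneg M) h2).le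
  have hM2 : (M : ℝ) ≤ Real.exp (L / 2) + 1 := by
    have h1 : (Nat.sqrt X) ^ 2 ≤ X := Nat.sqrt_le' X
    have h2 : ((Nat.sqrt X : ℕ) : ℝ) ^ 2 ≤ Real.exp (L / 2) ^ 2 := by rw [hsq]; exact_mod_cast h1
    have h3 := (pow_le_pow_iff_left₀ (by positivity) (Real.exp_pos _).le (by norm_num : (2 : ℕ) ≠ 0)).1 h2
    rw [hM]
    push_cast
    linarith
  have hR : 12 ≤ Real.exp (L / 2) := by
    have := Real.add_one_le_exp (L / 2)
    linarith
  have hMh : ((M + M * h : ℕ) : ℝ) ≤ X / 2 := by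
    push_cast
    have e1 : (M : ℝ) + M * h = M * (1 + h) := by ring
    rw [e1, ← hsq]
    have e3 : (M : ℝ) ≤ 2 * Real.exp (L / 2) := by linarith
    calc (M : ℝ) * (1 + h) ≤ (2 * Real.exp (L / 2)) * (Real.exp (L / 2) / 4) :=
          mul_le_mul e3 hh (by positivity) (by positivity)
      _ = Real.exp (L / 2) ^ 2 / 2 := by ring
  have hMh' : M + M * h ≤ X / 2 := by
    rw [Nat.le_div_iff_mul_le (by norm_num)]
    have : (((M + M * h) * 2 : ℕ) : ℝ) ≤ X := by push_cast at hMh ⊢; linarith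
    exact_mod_cast this
  have hM3 : 4 ≤ M := by
    have : (4 : ℝ) ≤ M := by linarith
    exact_mod_cast this
  -- the blocks
  set I : ℕ → Finset ℕ := fun j => Ico (M + j * h) (M + (j + 1) * h) with hI
  have hIsub : ∀ j < M, I j ⊆ Icc M X ∧ ∀ n ∈ I j, M ≤ n ∧ n < X := by
    intro j hj
    have e : (j + 1) * h ≤ M * h := Nat.mul_le_mul_right _ hj
    have key : ∀ n ∈ I j, M ≤ n ∧ n < X := by
      intro n hn
      simp only [hI, mem_Ico] at hn
      have e2 : X / 2 ≤ X := Nat.div_le_self _ _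
      have e3 : 0 ≤ j * h := Nat.zero_le _
      exact ⟨by omega, by omega⟩
    refine ⟨fun n hn => ?_, key⟩
    have := key n hn
    rw [mem_Icc]
    omega
  have hdisj : ∀ i j, i ≠ j → Disjoint (I i) (I j) := by
    intro i j hij
    rw [disjoint_left]
    intro n hn hn'
    simp only [hI, mem_Ico] at hn hn'
    rcases lt_or_gt_of_ne hij with hlt | hlt
    · have : (i + 1) * h ≤ j * h := Nat.mul_le_mul_right _ hlt
      omega
    · have : (j + 1) * h ≤ i * h := Nat.mul_le_mul_right _ hlt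
      omega
  have hprn : ∀ j < M, ∀ n ∈ I j, 0 ≤ pr n ∧ pr n ≤ 2 / L := by
    intro j hj n hn
    have h1 := ((hIsub j hj).2 n hn).1
    have h3 : 3 ≤ n := by omega
    refine ⟨(pr_mem h3).1.le, ?_⟩
    have h4 : L / 2 ≤ Real.log n := by
      rw [← Real.log_exp (L / 2)]
      exact Real.log_le_log (Real.exp_pos _) (hM1.trans (by exact_mod_cast h1))
    unfold pr
    rw [div_le_div_iff₀ (by linarith) (by linarith)]
    linarith
  have hsumI : ∀ j < M, ∑ n ∈ I j, pr n ≤ s := by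
    intro j hj
    calc ∑ n ∈ I j, pr n ≤ ∑ n ∈ I j, 2 / L := sum_le_sum fun n hn => (hprn j hj n hn).2
      _ = h * (2 / L) := by
          rw [sum_const, nsmul_eq_mul]
          congr 2
          simp only [hI, Nat.card_Ico]
          have : (j + 1) * h = j * h + h := by ring
          omega
      _ ≤ s := hs
  set Q : ℕ → ℝ := fun j => ∏ n ∈ I j, (1 - pr n) with hQ
  have hL2 : 2 / L ≤ 1 / 2 := by
    rw [div_le_div_iff₀ (by linarith) (by norm_num)]
    linarith
  have hQ01 : ∀ j < M, 0 ≤ Q j ∧ Q j ≤ 1 := by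
    intro j hj
    refine ⟨prod_nonneg fun n hn => ?_, prod_le_one (fun n hn => ?_) fun n hn => ?_⟩
    · linarith [(hprn j hj n hn).2]
    · linarith [(hprn j hj n hn).2]
    · linarith [(hprn j hj n hn).1]
  have hQlow : ∀ j < M, Real.exp (-(2 * s)) ≤ Q j := by
    intro j hj
    have e1 : Real.exp (-(2 * ∑ n ∈ I j, pr n)) ≤ Q j := by
      rw [mul_sum, ← sum_neg_distrib, Real.exp_sum]
      refine prod_le_prod (fun n _ => (Real.exp_pos _).le) fun n hn => ?_
      exact one_sub_ge (hprn j hj n hn).1 ((hprn j hj n hn).2.trans hL2)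
    refine le_trans (Real.exp_le_exp.2 ?_) e1
    have := hsumI j hj
    linarith
  have hk1 : 1 ≤ k := by omega
  have hs0 : 0 ≤ s := le_trans (by positivity) hs
  set ε : ℝ := 2 * (Real.exp (t * (2 * s)) / t ^ k) with hε
  have hε0 : 0 ≤ ε := by positivity
  have hnear : ∀ S : Finset ℕ, S ⊆ Icc M X → ∑ n ∈ S, pr n ≤ 2 * s →
      |P.real (void E S) - ∏ n ∈ S, (1 - pr n)| ≤ ε := by
    intro S hS hμ
    refine (void_near hk1 hE hS t ht).trans ?_
    rw [hε]
    refine mul_le_mul_of_nonneg_left ?_ (by norm_num)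
    refine div_le_div_of_nonneg_right (Real.exp_le_exp.2 ?_) (by positivity)
    exact mul_le_mul_of_nonneg_left hμ ht.le
  have hone : ∀ j < M, |P.real (void E (I j)) - Q j| ≤ ε := fun j hj =>
    hnear _ (hIsub j hj).1 (by have := hsumI j hj; linarith)
  have htwo : ∀ i < M, ∀ j < M, i ≠ j → |P.real (void E (I i) ∩ void E (I j)) - Q i * Q j| ≤ ε := by
    intro i hi j hj hij
    have e1 : void E (I i) ∩ void E (I j) = void E (I i ∪ I j) := by
      ext ω
      simp only [void, Set.mem_inter_iff, Set.mem_setOf_eq, mem_union]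
      exact ⟨fun h n hn => hn.elim (h.1 n) (h.2 n), fun h => ⟨fun n hn => h n (Or.inl hn), fun n hn => h n (Or.inr hn)⟩⟩
    have e2 : Q i * Q j = ∏ n ∈ I i ∪ I j, (1 - pr n) := by
      rw [prod_union (hdisj i j hij)]
    rw [e1, e2]
    refine hnear _ (union_subset (hIsub i hi).1 (hIsub j hj).1) ?_
    rw [sum_union (hdisj i j hij)]
    have := hsumI i hi
    have := hsumI j hj
    linarith
  -- Chebyshev
  have hmeas : ∀ j, MeasurableSet (void E (I j ∩ Icc M X)) := fun j => measurable_void hE inter_subset_right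
  have heq : ∀ j < M, I j ∩ Icc M X = I j := fun j hj => inter_eq_left.2 (hIsub j hj).1
  have hcheb := second_moment (P := P) M (fun j => void E (I j ∩ Icc M X)) hmeas Q hQ01 ε
    (fun j hj => by simp only [heq j hj]; exact hone j hj)
    (fun i hi j hj hij => by simp only [heq i hi, heq j hj]; exact htwo i hi j hj hij)
  have hev : {ω | ∀ j < M, ω ∉ void E (I j ∩ Icc M X)} = {ω | ∀ j < M, ω ∉ void E (I j)} := by
    ext ω
    simp only [Set.mem_setOf_eq]
    exact ⟨fun h j hj => by have := h j hj; rwa [heq j hj] at this, fun h j hj => by rw [heq j hj]; exact h j hj⟩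
  rw [hev] at hcheb
  set p0 := P.real {ω | ∀ j < M, ω ∉ void E (I j)} with hp0
  have hMpos : (0 : ℝ) < M := by positivity
  have hVlow : M * Real.exp (-(2 * s)) ≤ ∑ j ∈ range M, Q j := by
    have : ∑ j ∈ range M, Real.exp (-(2 * s)) ≤ ∑ j ∈ range M, Q j :=
      sum_le_sum fun j hj => hQlow j (mem_range.1 hj)
    rwa [sum_const, card_range, nsmul_eq_mul] at this
  have hp0' : p0 * (M * Real.exp (-(2 * s))) ^ 2 ≤ M + 3 * ε * M ^ 2 := by
    refine le_trans (mul_le_mul_of_nonneg_left ?_ measureReal_nonneg) hcheb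
    exact pow_le_pow_left₀ (by positivity) hVlow 2
  have hp1 : p0 ≤ Real.exp (4 * s) * (Real.exp (-(L / 2)) + 3 * ε) := by
    have e1 : (M * Real.exp (-(2 * s))) ^ 2 = M ^ 2 * Real.exp (-(4 * s)) := by
      rw [mul_pow, ← Real.exp_nat_mul]
      congr 2
      push_cast
      ring
    rw [e1] at hp0'
    have e2 : (M : ℝ) + 3 * ε * M ^ 2 ≤ M ^ 2 * (Real.exp (-(L / 2)) + 3 * ε) := by
      have a1 : (1 : ℝ) ≤ M * Real.exp (-(L / 2)) := by
        have : Real.exp (L / 2) * Real.exp (-(L / 2)) = 1 := by rw [← Real.exp_add]; simp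
        rw [← this]
        exact mul_le_mul_of_nonneg_right hM1 (Real.exp_pos _).le
      have a2 : (M : ℝ) ≤ M ^ 2 * Real.exp (-(L / 2)) := by
        calc (M : ℝ) = M * 1 := (mul_one _).symm
          _ ≤ M * (M * Real.exp (-(L / 2))) := mul_le_mul_of_nonneg_left a1 hMpos.le
          _ = _ := by ring
      linarith
    have e3 : p0 * Real.exp (-(4 * s)) ≤ Real.exp (-(L / 2)) + 3 * ε := by
      have : M ^ 2 * (p0 * Real.exp (-(4 * s))) ≤ M ^ 2 * (Real.exp (-(L / 2)) + 3 * ε) := by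
        calc (M : ℝ) ^ 2 * (p0 * Real.exp (-(4 * s))) = p0 * (M ^ 2 * Real.exp (-(4 * s))) := by ring
          _ ≤ _ := hp0'.trans e2
      exact le_of_mul_le_mul_left this (by positivity)
    have e4 : p0 = Real.exp (4 * s) * (p0 * Real.exp (-(4 * s))) := by
      rw [mul_comm p0, ← mul_assoc, ← Real.exp_add]
      simp
    rw [e4]
    exact mul_le_mul_of_nonneg_left e3 (Real.exp_pos _).le
  -- conclusion
  have hsub : {ω | ¬ ∃ x : ℕ, x + h ≤ X ∧ ∀ n : ℕ, x < n → n ≤ x + h → ω ∉ E n} ⊆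
      {ω | ∀ j < M, ω ∉ void E (I j)} := by
    intro ω hω j hj hvoid
    apply hω
    have e : (j + 1) * h ≤ M * h := Nat.mul_le_mul_right _ hj
    have e' : (j + 1) * h = j * h + h := by ring
    have e2 : X / 2 ≤ X := Nat.div_le_self _ _
    refine ⟨M + j * h - 1, by omega, fun n h1 h2 => hvoid n ?_⟩
    simp only [hI, mem_Ico]
    constructor
    · omega
    · omega
  refine (measureReal_mono hsub (measure_ne_top _ _)).trans ?_
  have e5 : 3 * ε = 6 * (Real.exp (t * (2 * s)) / t ^ k) := by rw [hε]; ring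
  rw [← e5]
  exact hp1

theorem poly_win (c ε : ℝ) (hc : 0 < c) (hε : 0 < ε) : ∃ δ : ℝ, 0 < δ ∧
    ∀ᶠ X : ℕ in atTop, ∀ (Ω : Type) (_ : MeasurableSpace Ω) (P : Measure Ω), IsProbabilityMeasure P →
      ∀ (E : ℕ → Set Ω) (k : ℕ), Loc P k (Icc (Nat.sqrt X + 1) X) E →
        c * Real.log X / Real.log (Real.log X) ≤ k →
        P.real {ω | ¬ ∃ x : ℕ, (x : ℝ) + Real.log X ^ (2 - ε) ≤ X ∧
          ∀ n : ℕ, x < n → (n : ℝ) ≤ x + Real.log X ^ (2 - ε) → ω ∉ E n} ≤ (X : ℝ) ^ (-δ) := by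
  obtain ⟨e, he⟩ : ∃ e, e = min ε (1 / 2) := ⟨_, rfl⟩
  have he0 : 0 < e := by rw [he]; exact lt_min hε (by norm_num)
  have he1 : e ≤ ε := by rw [he]; exact min_le_left _ _
  have he2 : e ≤ 1 / 2 := by rw [he]; exact min_le_right _ _
  obtain ⟨d, hd⟩ : ∃ d, d = min (1 / 2) (c * e / 2) := ⟨_, rfl⟩
  have hd0 : 0 < d := by rw [hd]; exact lt_min (by norm_num) (by positivity)
  have hd1 : d ≤ 1 / 2 := by rw [hd]; exact min_le_left _ _
  have hd2 : d ≤ c * e / 2 := by rw [hd]; exact min_le_right _ _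
  have h1 := loglog_small (c / 2) (by positivity)
  have h2 : ∀ᶠ X : ℕ in atTop, 16 / (d / 8) ≤ Real.log X ^ e :=
    ((tendsto_rpow_atTop he0).comp tendsto_logX).eventually_ge_atTop _
  have h3 : ∀ᶠ X : ℕ in atTop, 16 / (d / 8) ≤ Real.log X ^ (e / 2) :=
    ((tendsto_rpow_atTop (by linarith : (0 : ℝ) < e / 2)).comp tendsto_logX).eventually_ge_atTop _
  have h4 := tendsto_logX.eventually (sq_le_exp (1 / 2) 12 (by norm_num))
  have h5 := tendsto_logX.eventually (sq_le_exp (d / 4) 11 (by positivity))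
  refine ⟨d / 2, by positivity, ?_⟩
  filter_upwards [h1, h2, h3, h4, h5, tendsto_logX.eventually_ge_atTop 100,
    tendsto_loglogX.eventually_ge_atTop 1] with X g1 g2 g3 g4 g5 g6 g7 Ω _ P _ E k hE hk
  obtain ⟨L, hL⟩ : ∃ L, L = Real.log X := ⟨_, rfl⟩
  rw [← hL] at g1 g2 g3 g4 g5 g6 g7 hk ⊢
  obtain ⟨l, hl⟩ : ∃ l, l = Real.log L := ⟨_, rfl⟩
  rw [← hl] at g1 g7 hk
  have hL0 : 0 < L := by linarith
  have hl0 : 0 < l := by linarith
  have hX0 : (0 : ℝ) < X := by
    rcases Nat.eq_zero_or_pos X with h | h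
    · subst h
      simp at hL
      linarith
    · exact_mod_cast h
  have hk2 : 2 ≤ k := by
    have : (2 : ℝ) ≤ c * L / l := by
      rw [le_div_iff₀ hl0]
      linarith
    exact_mod_cast this.trans hk
  have hpow1 : 1 ≤ L ^ (1 - e) := Real.one_le_rpow (by linarith) (by linarith)
  have hsplit : L = L ^ (1 - e) * L ^ e := by
    rw [← Real.rpow_add hL0]
    simp
  have hsplit2 : L = L ^ (1 - e) * L ^ (e / 2) * L ^ (e / 2) := by
    rw [← Real.rpow_add hL0, ← Real.rpow_add hL0]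
    rw [show 1 - e + e / 2 + e / 2 = 1 by ring, Real.rpow_one]
  have hsq : L ^ (2 - e) = L * L ^ (1 - e) := by
    rw [show (2 : ℝ) - e = 1 + (1 - e) by ring, Real.rpow_add hL0, Real.rpow_one]
  have hLle : L ^ (1 - e) ≤ L := by
    calc L ^ (1 - e) ≤ L ^ (1 : ℝ) := Real.rpow_le_rpow_of_exponent_le (by linarith) (by linarith)
      _ = L := Real.rpow_one L
  obtain ⟨h, hh⟩ : ∃ h, h = ⌈L ^ (2 - e)⌉₊ := ⟨_, rfl⟩
  have hh1 : L ^ (2 - e) ≤ h := by rw [hh]; exact Nat.le_ceil _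
  have hh2 : (h : ℝ) < L ^ (2 - e) + 1 := by rw [hh]; exact Nat.ceil_lt_add_one (by positivity)
  have hhs : (h : ℝ) * (2 / L) ≤ 4 * L ^ (1 - e) := by
    have : (h : ℝ) ≤ 2 * (L * L ^ (1 - e)) := by
      rw [hsq] at hh2
      nlinarith
    calc (h : ℝ) * (2 / L) ≤ 2 * (L * L ^ (1 - e)) * (2 / L) := mul_le_mul_of_nonneg_right this (by positivity)
      _ = 4 * L ^ (1 - e) := by field_simp; ring
  have hhe : (1 : ℝ) + h ≤ Real.exp (L / 2) / 4 := by
    have e1 : (h : ℝ) ≤ L * L + 1 := by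
      rw [hsq] at hh2
      nlinarith
    have e2 : 12 * L ^ 2 ≤ Real.exp (L / 2) := by
      rw [show L / 2 = 1 / 2 * L by ring]
      exact g4
    nlinarith
  have hmain := low_win h (4 * L ^ (1 - e)) (L ^ (e / 2)) (by rw [← hL]; exact g6) hk2 hE
    (by rw [← hL]; exact hhe) (by rw [← hL]; exact hhs) (by positivity)
  rw [← hL] at hmain
  -- the estimates
  have a1 : 4 * (4 * L ^ (1 - e)) ≤ d / 8 * L := by
    rw [div_le_iff₀ (by positivity)] at g2
    calc 4 * (4 * L ^ (1 - e)) = L ^ (1 - e) * 16 := by ring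
      _ ≤ L ^ (1 - e) * (L ^ e * (d / 8)) := mul_le_mul_of_nonneg_left g2 (by positivity)
      _ = d / 8 * (L ^ (1 - e) * L ^ e) := by ring
      _ = d / 8 * L := by rw [← hsplit]
  have a2 : L ^ (e / 2) * (2 * (4 * L ^ (1 - e))) ≤ d / 8 * L := by
    rw [div_le_iff₀ (by positivity)] at g3
    have hp : 0 ≤ L ^ (1 - e) * L ^ (e / 2) := by positivity
    calc L ^ (e / 2) * (2 * (4 * L ^ (1 - e))) = L ^ (1 - e) * L ^ (e / 2) * 8 := by ring
      _ ≤ L ^ (1 - e) * L ^ (e / 2) * 16 := mul_le_mul_of_nonneg_left (by norm_num) hp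
      _ ≤ L ^ (1 - e) * L ^ (e / 2) * (L ^ (e / 2) * (d / 8)) := mul_le_mul_of_nonneg_left g3 hp
      _ = d / 8 * (L ^ (1 - e) * L ^ (e / 2) * L ^ (e / 2)) := by ring
      _ = d / 8 * L := by rw [← hsplit2]
  have a3 : Real.exp (d * L) ≤ (L ^ (e / 2)) ^ k := by
    rw [← Real.rpow_natCast, ← Real.rpow_mul hL0.le, Real.rpow_def_of_pos hL0, ← hl]
    apply Real.exp_le_exp.2
    have e1 : l * (e / 2 * (c * L / l)) ≤ l * (e / 2 * k) :=
      mul_le_mul_of_nonneg_left (mul_le_mul_of_nonneg_left hk (by positivity)) hl0.le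
    have e2 : l * (e / 2 * (c * L / l)) = c * e / 2 * L := by field_simp
    have e3 : d * L ≤ c * e / 2 * L := mul_le_mul_of_nonneg_right hd2 hL0.le
    linarith
  have a4 : Real.exp (L ^ (e / 2) * (2 * (4 * L ^ (1 - e)))) / (L ^ (e / 2)) ^ k ≤ Real.exp (d / 8 * L - d * L) := by
    rw [Real.exp_sub]
    exact div_le_div₀ (Real.exp_pos _).le (Real.exp_le_exp.2 a2) (Real.exp_pos _) a3
  have a5 : Real.exp (-(L / 2)) ≤ Real.exp (d / 8 * L - d * L) := by
    apply Real.exp_le_exp.2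
    nlinarith
  have a6 : Real.exp (4 * (4 * L ^ (1 - e))) ≤ Real.exp (d / 8 * L) := Real.exp_le_exp.2 a1
  have hXe : (X : ℝ) ^ (-(d / 2)) = Real.exp (-(d / 2) * L) := by
    rw [Real.rpow_def_of_pos hX0, ← hL]
    congr 1
    ring
  have hfin : P.real {ω | ¬ ∃ x : ℕ, x + h ≤ X ∧ ∀ n : ℕ, x < n → n ≤ x + h → ω ∉ E n} ≤ (X : ℝ) ^ (-(d / 2)) := by
    refine hmain.trans ?_
    rw [hXe]
    have b1 : Real.exp (4 * (4 * L ^ (1 - e))) * (Real.exp (-(L / 2)) +
        6 * (Real.exp (L ^ (e / 2) * (2 * (4 * L ^ (1 - e)))) / (L ^ (e / 2)) ^ k)) ≤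
        Real.exp (d / 8 * L) * (7 * Real.exp (d / 8 * L - d * L)) := by
      refine mul_le_mul a6 (by linarith) (by positivity) (Real.exp_pos _).le
    have b2 : Real.exp (d / 8 * L) * (7 * Real.exp (d / 8 * L - d * L)) = 7 * Real.exp (-(3 * d / 4) * L) := by
      rw [mul_left_comm, ← Real.exp_add]
      congr 2
      ring
    have b3 : Real.exp (-(L / 2)) ≤ Real.exp (-(3 * d / 4) * L) := by
      apply Real.exp_le_exp.2
      nlinarith
    have b4 : 1 ≤ L ^ 2 := by nlinarith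
    have b5 : 0 < Real.exp (-(3 * d / 4) * L) := Real.exp_pos _
    have b6 : Real.exp (d / 4 * L) * Real.exp (-(3 * d / 4) * L) = Real.exp (-(d / 2) * L) := by
      rw [← Real.exp_add]
      congr 1
      ring
    have b7 : 11 * L ^ 2 * Real.exp (-(3 * d / 4) * L) ≤ Real.exp (-(d / 2) * L) := by
      rw [← b6]
      exact mul_le_mul_of_nonneg_right g5 b5.le
    have b8 : 4 * L ^ 2 * Real.exp (-(L / 2)) ≤ 4 * L ^ 2 * Real.exp (-(3 * d / 4) * L) :=
      mul_le_mul_of_nonneg_left b3 (by positivity)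
    have b9 : 7 * Real.exp (-(3 * d / 4) * L) ≤ 7 * L ^ 2 * Real.exp (-(3 * d / 4) * L) := by
      nlinarith
    nlinarith
  refine le_trans (measureReal_mono ?_ (measure_ne_top _ _)) hfin
  intro ω hω hg
  apply hω
  obtain ⟨x, hx1, hx2⟩ := hg
  have hle : L ^ (2 - ε) ≤ h := by
    refine le_trans ?_ hh1
    exact Real.rpow_le_rpow_of_exponent_le (by linarith) (by linarith)
  refine ⟨x, ?_, fun n h1 h2 => hx2 n h1 ?_⟩
  · have : ((x + h : ℕ) : ℝ) ≤ X := by exact_mod_cast hx1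
    push_cast at this
    linarith
  · have : (n : ℝ) ≤ ((x + h : ℕ) : ℝ) := by
      push_cast
      linarith
    exact_mod_cast this

end Pool.Agent.H453.PO
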